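import Pool.Agent.RatApprox.LineE2

/-!
MP_39a2ce_co, partial result: in the Euclidean plane every line together with two arbitrary
points and their mirror images in the line is rationally approximable.
-/

set_option autoImplicit false

namespace Pool.Agent.Results.MP_39a2ce_co.LinePlusFour

/-- the Euclidean plane -/
abbrev Plane := EuclideanSpace ℝ (Fin 2)

/-- A set of points of the plane is rational if all distances between its points are rational. -/
def RationalSet (X : Set Plane) : Prop :=
  ∀ x ∈ X, ∀ y ∈ X, ∃ q : ℚ, dist x y = (q : ℝ)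

/-- `P` is rationally approximable if for every `ε > 0` there is a rational set `X` such that
every point of `P` lies within distance `ε` of some point of `X`. -/
def RationallyApproximable (P : Set Plane) : Prop :=
  ∀ ε : ℝ, 0 < ε → ∃ X : Set Plane, RationalSet X ∧ ∀ p ∈ P, ∃ x ∈ X, dist p x < ε

/-- The line through `A` with direction `e`, two points and their mirror images in the line
(`n` is a vector orthogonal to `e`; the two pairs of mirror images are `A + a e ± b n` and
`A + c e ± d n`). -/
theorem result (A e n : Plane) (he : e ≠ 0) (hen : inner ℝ e n = (0 : ℝ)) (a b c d : ℝ) :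
    RationallyApproximable ({X : Plane | ∃ t : ℝ, X = A + t • e} ∪
      {A + a • e + b • n, A + a • e - b • n, A + c • e + d • n, A + c • e - d • n}) := by
  classical
  set ℓ : AffineSubspace ℝ Plane := AffineSubspace.mk' A (Submodule.span ℝ {e}) with hℓ
  have hA : A ∈ ℓ := AffineSubspace.self_mem_mk' _ _
  haveI : Nonempty ℓ := ⟨⟨A, hA⟩⟩
  have hdir : ℓ.direction = Submodule.span ℝ {e} := AffineSubspace.direction_mk' _ _
  have hfin : Module.finrank ℝ ℓ.direction = 1 := by
    rw [hdir]; exact finrank_span_singleton he
  have hmem : ∀ t : ℝ, A + t • e ∈ ℓ := by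
    intro t
    have h1 : t • e ∈ ℓ.direction := by
      rw [hdir]; exact Submodule.smul_mem _ _ (Submodule.mem_span_singleton_self e)
    have h2 := AffineSubspace.vadd_mem_of_mem_direction h1 hA
    rwa [vadd_eq_add, add_comm] at h2
  have hort : ∀ s : ℝ, s • n ∈ ℓ.directionᗮ := by
    intro s
    rw [hdir, Submodule.mem_orthogonal_singleton_iff_inner_right, inner_smul_right, hen, mul_zero]
  have hrefl : ∀ t s : ℝ,
      EuclideanGeometry.reflection ℓ (A + t • e + s • n) = A + t • e - s • n := by
    intro t s
    have h := EuclideanGeometry.reflection_orthogonal_vadd (hmem t) (hort s)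
    simp only [vadd_eq_add] at h
    rw [add_comm (A + t • e) (s • n), h]
    abel
  have key := Pool.Agent.RatApprox.line_E2 ℓ hfin (A + a • e + b • n) (A + c • e + d • n)
  rw [hrefl, hrefl] at key
  intro ε hε
  obtain ⟨X, hX, h⟩ := key ε hε
  refine ⟨X, hX, ?_⟩
  rintro p (⟨t, rfl⟩ | rfl | rfl | rfl | hp)
  · exact h _ (Or.inl (hmem t))
  · exact h _ (Or.inr (Or.inl rfl))
  · exact h _ (Or.inr (Or.inr (Or.inr (Or.inl rfl))))
  · exact h _ (Or.inr (Or.inr (Or.inl rfl)))
  · exact h _ (Or.inr (Or.inr (Or.inr (Or.inr hp))))

end Pool.Agent.Results.MP_39a2ce_co.LinePlusFour
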